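import Pool.Agent.TH806.LK.Defs

set_option autoImplicit false

/-! Common lemmas for the upper bounds of the LK project: continuity, conjugation, Fourier integrals. -/

namespace Pool.Agent.TH112.LKC

open Finset Filter Topology MeasureTheory Complex
open Pool.Agent.W184.NZ
open Pool.Agent.TH806
open Pool.Agent.TH806.LK
open Pool.Agent.H306R2.SM (om cl Yf)
open Pool.Agent.H262R4.TM (Rng Ck)

noncomputable section

lemma NC_cont (K : ℕ) : Continuous fun p : ℂ × ℂ => NC K p.1 p.2 := by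
  unfold NC; fun_prop

lemma NC_conj (K : ℕ) (a z : ℂ) :
    starRingEnd ℂ (NC K a z) = NC K (starRingEnd ℂ a) (starRingEnd ℂ z) := by
  unfold NC
  rw [map_sum]
  refine sum_congr rfl fun k _ => ?_
  simp only [map_mul, map_div₀, map_pow, map_natCast]

lemma conj_half (θ : ℝ) : starRingEnd ℂ ((θ:ℂ) / 2 * I) = (((-θ : ℝ) : ℂ)) / 2 * I := by
  simp only [map_mul, map_div₀, Complex.conj_ofReal, Complex.conj_I, map_ofNat]
  push_cast; ring

lemma pf_conj (K : ℕ) (θ : ℝ) (z : ℂ) : starRingEnd ℂ (pf K θ z) = pf K (-θ) z := by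
  unfold pf
  rw [map_mul, NC_conj, NC_conj, Complex.conj_conj, conj_half, mul_comm]

lemma TD_conj (K : ℕ) (θ : ℝ) (z : ℂ) : starRingEnd ℂ (TD K θ z) = TD K (-θ) z := by
  unfold TD
  simp only [map_div₀, map_add, map_mul, map_pow, NC_conj, Complex.conj_conj, conj_half, map_natCast, map_ofNat]
  have e : starRingEnd ℂ ((θ:ℂ) / 2 * I) = (((-θ : ℝ) : ℂ)) / 2 * I := conj_half θ
  simp only [map_mul, map_div₀, map_ofNat] at e
  rw [e]
  ring

lemma pf_cont (K : ℕ) : Continuous fun p : ℝ × ℂ => pf K p.1 p.2 := by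
  unfold pf NC; fun_prop

lemma TD_cont (K : ℕ) : Continuous fun p : ℝ × ℂ => TD K p.1 p.2 := by
  unfold TD NC; fun_prop

/-- Fourier integral -/
def FI (h : ℝ → ℝ) (u : ℝ) (P : ℝ → ℂ) : ℂ :=
  ∫ θ in (-1:ℝ)..1, (h θ : ℂ) * (Complex.exp (-((θ * u : ℝ) : ℂ) * I) * P θ)

lemma DK_eq (n Rs J : ℕ) (h : ℝ → ℝ) (u : ℝ) (z : ℕ → ℂ) :
    DK n Rs J h u z = FI h u (fun θ => ∏ i ∈ range J, pf (KK n Rs i) θ (z i)) := rfl

lemma FI_conj (h : ℝ → ℝ) (u : ℝ) (P : ℝ → ℂ) (hP : ∀ θ, starRingEnd ℂ (P θ) = P (-θ)) (σ : ℝ)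
    (hσ : ∀ θ, h (-θ) = σ * h θ) : starRingEnd ℂ (FI h u P) = σ * FI h u P := by
  unfold FI
  rw [← intervalIntegral.intervalIntegral_conj]
  have e2 := intervalIntegral.integral_comp_neg (a := (-1:ℝ)) (b := 1)
    (fun θ => (h (-θ) : ℂ) * (Complex.exp (-((θ * u : ℝ) : ℂ) * I) * P θ))
  rw [neg_neg] at e2
  have e3 : (∫ θ in (-1:ℝ)..1, starRingEnd ℂ ((h θ : ℂ) * (Complex.exp (-((θ * u : ℝ) : ℂ) * I) * P θ))) =
      ∫ θ in (-1:ℝ)..1, (h (-(-θ)) : ℂ) * (Complex.exp (-((-θ * u : ℝ) : ℂ) * I) * P (-θ)) := by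
    refine intervalIntegral.integral_congr fun θ _ => ?_
    rw [map_mul, map_mul, hP, Complex.conj_ofReal, ← Complex.exp_conj, neg_neg]
    congr 3
    simp only [map_mul, map_neg, Complex.conj_ofReal, Complex.conj_I]
    push_cast; ring
  rw [e3, e2, ← intervalIntegral.integral_const_mul]
  refine intervalIntegral.integral_congr fun θ _ => ?_
  rw [hσ]; push_cast; ring

lemma FI_mul (h₁ h₂ : ℝ → ℝ) (u : ℝ) (P₁ P₂ : ℝ → ℂ) :
    FI h₁ u P₁ * FI h₂ u P₂ = ∫ θ₁ in (-1:ℝ)..1, ∫ θ₂ in (-1:ℝ)..1,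
      ((h₁ θ₁ * h₂ θ₂ : ℝ) : ℂ) * (Complex.exp (-(((θ₁ + θ₂) * u : ℝ) : ℂ) * I) * (P₁ θ₁ * P₂ θ₂)) := by
  unfold FI
  rw [← intervalIntegral.integral_mul_const]
  refine intervalIntegral.integral_congr fun θ₁ _ => ?_
  rw [← intervalIntegral.integral_const_mul]
  refine intervalIntegral.integral_congr fun θ₂ _ => ?_
  have : Complex.exp (-(((θ₁ + θ₂) * u : ℝ) : ℂ) * I) =
      Complex.exp (-((θ₁ * u : ℝ) : ℂ) * I) * Complex.exp (-((θ₂ * u : ℝ) : ℂ) * I) := by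
    rw [← Complex.exp_add]; congr 1; push_cast; ring
  rw [this]
  push_cast
  ring

/-- the basic square identity -/
lemma sq_id (J : ℕ) (K : ℕ → ℕ) (a u : ℝ) (h : ℝ → ℝ) (σ : ℝ) (hσ : ∀ θ, h (-θ) = σ * h θ)
    (Q : ℕ → ℝ → ℂ → ℂ) (hQ : ∀ i θ z, starRingEnd ℂ (Q i θ z) = Q i (-θ) z) (z : ℕ → ℂ) (X : ℂ) :
    ((‖∏ i ∈ range J, NC (K i) a (z i)‖ ^ 2 * ‖FI h u (fun θ => ∏ i ∈ range J, Q i θ (z i))‖ ^ 2 : ℝ) : ℂ) * X =
      σ * ∫ θ₁ in (-1:ℝ)..1, ∫ θ₂ in (-1:ℝ)..1, ((h θ₁ * h θ₂ : ℝ) : ℂ) *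
        (Complex.exp (-(((θ₁ + θ₂) * u : ℝ) : ℂ) * I) *
          ((∏ i ∈ range J, (NC (K i) a (z i) * NC (K i) a (starRingEnd ℂ (z i)) *
            (Q i θ₁ (z i) * Q i θ₂ (z i)))) * X)) := by
  have e1 : ((‖∏ i ∈ range J, NC (K i) a (z i)‖ ^ 2 : ℝ) : ℂ) =
      ∏ i ∈ range J, (NC (K i) a (z i) * NC (K i) a (starRingEnd ℂ (z i))) := by
    rw [Complex.ofReal_pow, ← Complex.mul_conj', map_prod, ← prod_mul_distrib]
    refine prod_congr rfl fun i _ => ?_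
    rw [NC_conj, Complex.conj_ofReal]
  have e2 : ((‖FI h u (fun θ => ∏ i ∈ range J, Q i θ (z i))‖ ^ 2 : ℝ) : ℂ) =
      σ * (FI h u (fun θ => ∏ i ∈ range J, Q i θ (z i)) * FI h u (fun θ => ∏ i ∈ range J, Q i θ (z i))) := by
    rw [Complex.ofReal_pow, ← Complex.mul_conj', FI_conj h u _ _ σ hσ]
    · ring
    · intro θ
      rw [map_prod]
      exact prod_congr rfl fun i _ => hQ i θ _
  rw [Complex.ofReal_mul, e1, e2, FI_mul]
  set A := ∏ i ∈ range J, (NC (K i) a (z i) * NC (K i) a (starRingEnd ℂ (z i))) with hA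
  rw [show ∀ y : ℂ, A * (σ * y) * X = σ * ((A * X) * y) by intro y; ring, ← intervalIntegral.integral_const_mul]
  congr 1
  refine intervalIntegral.integral_congr fun θ₁ _ => ?_
  rw [← intervalIntegral.integral_const_mul]
  refine intervalIntegral.integral_congr fun θ₂ _ => ?_
  have e3 : ∏ i ∈ range J, (NC (K i) a (z i) * NC (K i) a (starRingEnd ℂ (z i)) * (Q i θ₁ (z i) * Q i θ₂ (z i))) =
      A * ((∏ i ∈ range J, Q i θ₁ (z i)) * ∏ i ∈ range J, Q i θ₂ (z i)) := by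
    rw [hA, ← prod_mul_distrib, ← prod_mul_distrib]
  rw [e3]
  ring

lemma NC_succ (K : ℕ) (a z : ℂ) :
    NC (K + 1) a z = NC K a z + a ^ (K + 1) / ((K + 1).factorial : ℂ) * z ^ (K + 1) := by
  unfold NC; rw [sum_range_succ _ (K + 1)]

lemma half_deriv (θ : ℝ) : HasDerivAt (fun θ : ℝ => (θ:ℂ) / 2 * I) (1 / 2 * I) θ := by
  have := ((Complex.ofRealCLM.hasDerivAt (x := θ)).div_const 2).mul_const I
  simpa using this

lemma NC_deriv (K : ℕ) (θ : ℝ) (z : ℂ) :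
    HasDerivAt (fun θ : ℝ => NC K (θ / 2 * I) z)
      (I / 2 * z * (NC K (θ / 2 * I) z - (θ / 2 * I) ^ K / (K.factorial : ℂ) * z ^ K)) θ := by
  induction K with
  | zero =>
    have e : (fun θ : ℝ => NC 0 (θ / 2 * I) z) = fun _ => (1:ℂ) := by
      funext θ; simp [NC]
    rw [e]
    simpa [NC] using hasDerivAt_const θ (1:ℂ)
  | succ K ih =>
    have e : (fun θ : ℝ => NC (K + 1) (θ / 2 * I) z) =
        fun θ : ℝ => NC K (θ / 2 * I) z + (θ / 2 * I) ^ (K + 1) / ((K + 1).factorial : ℂ) * z ^ (K + 1) := by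
      funext θ; rw [NC_succ]
    rw [e]
    have h2 := (((half_deriv θ).pow (K + 1)).div_const ((K + 1).factorial : ℂ)).mul_const (z ^ (K + 1))
    have h3 := ih.add h2
    have hk : ((K.factorial : ℂ)) ≠ 0 := by exact_mod_cast Nat.factorial_ne_zero K
    have hk1 : ((K:ℂ) + 1) ≠ 0 := by exact_mod_cast Nat.succ_ne_zero K
    refine h3.congr_deriv ?_
    rw [NC_succ, Nat.factorial_succ, Nat.add_sub_cancel]
    push_cast
    field_simp
    ring

lemma pf_deriv (K : ℕ) (θ : ℝ) (z : ℂ) :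
    HasDerivAt (fun θ : ℝ => pf K θ z) (I * (z.re : ℂ) * pf K θ z - I * TD K θ z) θ := by
  have h := (NC_deriv K θ z).mul (NC_deriv K θ (starRingEnd ℂ z))
  refine h.congr_deriv ?_
  unfold pf TD
  rw [Complex.re_eq_add_conj]
  ring

lemma NC_cont1 (K : ℕ) (z : ℂ) : Continuous fun θ : ℝ => NC K (θ / 2 * I) z := by
  unfold NC; fun_prop

lemma pf_cont1 (K : ℕ) (z : ℂ) : Continuous fun θ : ℝ => pf K θ z := by
  unfold pf NC; fun_prop

lemma TD_cont1 (K : ℕ) (z : ℂ) : Continuous fun θ : ℝ => TD K θ z := by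
  unfold TD NC; fun_prop

/-- the factors with the defect at `i₀` -/
def QQ (K : ℕ → ℕ) (i₀ i : ℕ) (θ : ℝ) (z : ℂ) : ℂ := if i = i₀ then TD (K i) θ z else pf (K i) θ z

lemma QQ_conj (K : ℕ → ℕ) (i₀ i : ℕ) (θ : ℝ) (z : ℂ) : starRingEnd ℂ (QQ K i₀ i θ z) = QQ K i₀ i (-θ) z := by
  unfold QQ; split_ifs
  · exact TD_conj _ _ _
  · exact pf_conj _ _ _

lemma QQ_cont (K : ℕ → ℕ) (i₀ i : ℕ) : Continuous fun p : ℝ × ℂ => QQ K i₀ i p.1 p.2 := by
  unfold QQ; split_ifs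
  · exact TD_cont _
  · exact pf_cont _

lemma QQ_cont1 (K : ℕ → ℕ) (i₀ i : ℕ) (z : ℂ) : Continuous fun θ : ℝ => QQ K i₀ i θ z := by
  unfold QQ; split_ifs
  · exact TD_cont1 _ _
  · exact pf_cont1 _ _

lemma exp_deriv (u θ : ℝ) : HasDerivAt (fun θ : ℝ => Complex.exp (-((θ * u : ℝ) : ℂ) * I))
    (-(u:ℂ) * I * Complex.exp (-((θ * u : ℝ) : ℂ) * I)) θ := by
  have h1 : HasDerivAt (fun θ : ℝ => -((θ * u : ℝ) : ℂ) * I) (-(u:ℂ) * I) θ := by
    have := (((hasDerivAt_id θ).mul_const u).ofReal_comp.neg).mul_const I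
    simpa using this
  have h2 := h1.cexp
  refine h2.congr_deriv ?_
  ring

/-- integration by parts -/
lemma by_parts (J : ℕ) (K : ℕ → ℕ) (u : ℝ) (z : ℕ → ℂ) :
    (((∑ i ∈ range J, (z i).re) - u : ℝ) : ℂ) * FI hh u (fun θ => ∏ i ∈ range J, pf (K i) θ (z i)) =
      -2 * I * FI (fun θ => θ) u (fun θ => ∏ i ∈ range J, pf (K i) θ (z i)) +
        ∑ i₀ ∈ range J, FI hh u (fun θ => ∏ i ∈ range J, QQ K i₀ i θ (z i)) := by
  set P : ℝ → ℂ := fun θ => ∏ i ∈ range J, pf (K i) θ (z i) with hP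
  set x : ℝ := ∑ i ∈ range J, (z i).re with hx
  have hPc : Continuous P := continuous_finsetProd _ fun i _ => pf_cont1 _ _
  have hEc : Continuous fun θ : ℝ => Complex.exp (-((θ * u : ℝ) : ℂ) * I) := by fun_prop
  have hQc : ∀ i₀, Continuous fun θ : ℝ => ∏ i ∈ range J, QQ K i₀ i θ (z i) :=
    fun i₀ => continuous_finsetProd _ fun i _ => QQ_cont1 _ _ _ _
  have hdP : ∀ θ, HasDerivAt P (I * (x:ℂ) * P θ - I * ∑ i₀ ∈ range J, ∏ i ∈ range J, QQ K i₀ i θ (z i)) θ := by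
    intro θ
    have h1 := HasDerivAt.fun_finsetProd (u := range J) (f := fun i θ => pf (K i) θ (z i))
      (x := θ) (fun i _ => pf_deriv (K i) θ (z i))
    refine h1.congr_deriv ?_
    have h2 : ∀ i₀ ∈ range J, (∏ j ∈ (range J).erase i₀, pf (K j) θ (z j)) •
        (I * ((z i₀).re : ℂ) * pf (K i₀) θ (z i₀) - I * TD (K i₀) θ (z i₀)) =
        I * ((z i₀).re : ℂ) * P θ - I * ∏ i ∈ range J, QQ K i₀ i θ (z i) := by
      intro i₀ hi
      have hPθ : P θ = ∏ i ∈ range J, pf (K i) θ (z i) := rfl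
      rw [hPθ, ← mul_prod_erase (range J) (fun i => pf (K i) θ (z i)) hi,
        ← mul_prod_erase (range J) (fun i => QQ K i₀ i θ (z i)) hi]
      have e1 : ∏ i ∈ (range J).erase i₀, QQ K i₀ i θ (z i) = ∏ j ∈ (range J).erase i₀, pf (K j) θ (z j) := by
        refine prod_congr rfl fun i hi => ?_
        simp [QQ, (mem_erase.mp hi).1]
      have e2 : QQ K i₀ i₀ θ (z i₀) = TD (K i₀) θ (z i₀) := by simp [QQ]
      rw [e1, e2, smul_eq_mul]
      ring
    rw [sum_congr rfl h2, sum_sub_distrib, ← mul_sum, ← sum_mul, ← mul_sum, hx]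
    push_cast
    ring
  have hd : ∀ θ ∈ Set.uIcc (-1:ℝ) 1, HasDerivAt (fun θ : ℝ => ((hh θ : ℝ) : ℂ) * (Complex.exp (-((θ * u : ℝ) : ℂ) * I) * P θ))
      (-2 * ((θ:ℂ) * (Complex.exp (-((θ * u : ℝ) : ℂ) * I) * P θ)) +
        (I * ((x - u : ℝ) : ℂ)) * (((hh θ : ℝ) : ℂ) * (Complex.exp (-((θ * u : ℝ) : ℂ) * I) * P θ)) -
        I * ∑ i₀ ∈ range J, (((hh θ : ℝ) : ℂ) * (Complex.exp (-((θ * u : ℝ) : ℂ) * I) *
          ∏ i ∈ range J, QQ K i₀ i θ (z i)))) θ := by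
    intro θ _
    have h1 : HasDerivAt (fun θ : ℝ => ((hh θ : ℝ) : ℂ)) (-2 * (θ:ℂ)) θ := by
      have : HasDerivAt hh (-2 * θ) θ := by
        unfold hh
        have := ((hasDerivAt_id θ).pow 2).const_sub 1
        refine this.congr_deriv ?_
        simp
      simpa using this.ofReal_comp
    have h2 := h1.mul ((exp_deriv u θ).mul (hdP θ))
    refine h2.congr_deriv ?_
    rw [← mul_sum, ← mul_sum, Pi.mul_apply]
    push_cast
    ring
  have hc1 : Continuous fun θ : ℝ => ((θ:ℂ) * (Complex.exp (-((θ * u : ℝ) : ℂ) * I) * P θ)) := by fun_prop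
  have hc2 : Continuous fun θ : ℝ => (((hh θ : ℝ) : ℂ) * (Complex.exp (-((θ * u : ℝ) : ℂ) * I) * P θ)) := by
    unfold hh; fun_prop
  have hc3 : ∀ i₀, Continuous fun θ : ℝ => (((hh θ : ℝ) : ℂ) * (Complex.exp (-((θ * u : ℝ) : ℂ) * I) *
          ∏ i ∈ range J, QQ K i₀ i θ (z i))) := by
    intro i₀
    have := hQc i₀
    unfold hh; fun_prop
  have hI := intervalIntegral.integral_eq_sub_of_hasDerivAt hd (Continuous.intervalIntegrable (by
    refine ((continuous_const.mul hc1).add (continuous_const.mul hc2)).sub (continuous_const.mul ?_)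
    exact continuous_finsetSum _ fun i _ => hc3 i) _ _)
  have e1 : hh 1 = 0 := by simp [hh]
  have e2 : hh (-1) = 0 := by simp [hh]
  rw [e1, e2] at hI
  simp only [Complex.ofReal_zero, zero_mul, sub_self] at hI
  rw [intervalIntegral.integral_sub, intervalIntegral.integral_add, intervalIntegral.integral_const_mul,
    intervalIntegral.integral_const_mul, intervalIntegral.integral_const_mul,
    intervalIntegral.integral_finsetSum] at hI
  rotate_left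
  · exact fun i _ => (hc3 i).intervalIntegrable _ _
  · exact (continuous_const.mul hc1).intervalIntegrable _ _
  · exact (continuous_const.mul hc2).intervalIntegrable _ _
  · exact ((continuous_const.mul hc1).add (continuous_const.mul hc2)).intervalIntegrable _ _
  · exact (continuous_const.mul (continuous_finsetSum _ fun i _ => hc3 i)).intervalIntegrable _ _
  have hI2 : -2 * FI (fun θ => θ) u P + (I * ((x - u : ℝ) : ℂ)) * FI hh u P -
      I * ∑ i₀ ∈ range J, FI hh u (fun θ => ∏ i ∈ range J, QQ K i₀ i θ (z i)) = 0 := hI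
  have hI3 := congrArg (fun w => -I * w) hI2
  simp only [mul_zero] at hI3
  have : I * I = -1 := Complex.I_mul_I
  linear_combination hI3 + (((x - u : ℝ) : ℂ) * FI hh u P - ∑ i₀ ∈ range J, FI hh u (fun θ => ∏ i ∈ range J, QQ K i₀ i θ (z i))) * this

end

end Pool.Agent.TH112.LKC
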