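import Pool.Agent.TH112.LK_Com

set_option autoImplicit false

/-! The common bound behind the upper bounds U1, U2, U3 of the LK project. -/

namespace Pool.Agent.TH112.LKC

open Finset Filter Topology MeasureTheory Complex
open Pool.Agent.W184.NZ
open Pool.Agent.TH806
open Pool.Agent.TH806.LK
open Pool.Agent.H306R2.SM (om cl Yf)
open Pool.Agent.H262R4.TM (Rng Ck)

noncomputable section

/-! ### continuity and size along `zz` -/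

lemma zz_cont {I : ℕ → Finset ℕ} (hI : ∀ i, ∀ p ∈ I i, p.Prime) : Continuous fun t => zz I t := by
  refine continuous_pi fun i => ?_
  unfold zz PI
  refine continuous_finsetSum _ fun p hp => ?_
  have hp0 : (p:ℂ) ≠ 0 := by exact_mod_cast (hI i p hp).ne_zero
  exact Continuous.const_cpow (by fun_prop) (Or.inl hp0)

lemma zz_bdd {I : ℕ → Finset ℕ} (hI : ∀ i, ∀ p ∈ I i, p.Prime) (t : ℝ) (i : ℕ) : ‖zz I t i‖ ≤ (I i).card := by
  unfold zz PI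
  refine (norm_sum_le _ _).trans ?_
  have h1 : ∀ p ∈ I i, ‖(p:ℂ) ^ (-(1 / 2 + (t:ℂ) * Complex.I))‖ ≤ 1 := by
    intro p hp
    have hp1 : 1 ≤ p := (hI i p hp).one_lt.le
    rw [Complex.norm_natCast_cpow_of_pos (by omega)]
    refine Real.rpow_le_one_of_one_le_of_nonpos (by exact_mod_cast hp1) ?_
    simp
  calc ∑ p ∈ I i, ‖(p:ℂ) ^ (-(1 / 2 + (t:ℂ) * Complex.I))‖ ≤ ∑ p ∈ I i, (1:ℝ) := sum_le_sum h1
    _ = _ := by simp

lemma comp_bdd {F : (ℕ → ℂ) → ℝ} (hF : Continuous F) {I : ℕ → Finset ℕ} (hI : ∀ i, ∀ p ∈ I i, p.Prime) :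
    ∃ B : ℝ, ∀ t, ‖F (zz I t)‖ ≤ B := by
  have hc : IsCompact (Set.pi Set.univ fun i => Metric.closedBall (0:ℂ) ((I i).card : ℝ)) :=
    isCompact_univ_pi fun i => isCompact_closedBall _ _
  obtain ⟨B, hB⟩ := hc.exists_bound_of_continuousOn hF.continuousOn
  refine ⟨B, fun t => hB _ ?_⟩
  intro i _
  simpa using zz_bdd hI t i

lemma om_F_int {F : (ℕ → ℂ) → ℝ} (hF : Continuous F) {I : ℕ → Finset ℕ} (hI : ∀ i, ∀ p ∈ I i, p.Prime)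
    (κ : ℕ) {δ : ℝ} (hδ : 0 < δ) : IntegrableOn (fun t => om κ δ t * F (zz I t)) (Set.Ioi 0) := by
  obtain ⟨B, hB⟩ := comp_bdd hF hI
  refine (om_int0 κ hδ).mul_bdd (c := B) (hF.comp (zz_cont hI)).aestronglyMeasurable ?_
  exact ae_of_all _ fun t => hB t

lemma FI_cont {h : ℝ → ℝ} (hh : Continuous h) (u : ℝ) {Q : ℕ → ℝ → ℂ → ℂ}
    (hQ : ∀ i, Continuous fun p : ℝ × ℂ => Q i p.1 p.2) (J : ℕ) :
    Continuous fun z : ℕ → ℂ => FI h u (fun θ => ∏ i ∈ range J, Q i θ (z i)) := by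
  unfold FI
  apply intervalIntegral.continuous_parametric_intervalIntegral_of_continuous'
  have h1 : Continuous fun x : (ℕ → ℂ) × ℝ => ∏ i ∈ range J, Q i x.2 (x.1 i) :=
    continuous_finsetProd _ fun i _ => (hQ i).comp (by fun_prop : Continuous fun x : (ℕ → ℂ) × ℝ => (x.2, x.1 i))
  have : Continuous fun x : (ℕ → ℂ) × ℝ => ((h x.2 : ℝ) : ℂ) * (Complex.exp (-((x.2 * u : ℝ) : ℂ) * I) *
      ∏ i ∈ range J, Q i x.2 (x.1 i)) := by fun_prop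
  exact this

lemma AZ_cont (n Rs J : ℕ) (a : ℝ) : Continuous fun z : ℕ → ℂ => AZ n Rs J a z := by
  unfold AZ NC; fun_prop

/-! ### the factors -/

/-- the factors, with the special factor at `i₀` -/
def GG (k : ℕ) (K R : ℕ → ℕ) (a : ℝ) (i₀ i : ℕ) (θ₁ θ₂ : ℝ) (z : ℂ) : ℂ :=
  if i = i₀ then (if k = 0 then BB (K i) (R i) a θ₁ θ₂ z else BE (K i) a θ₁ θ₂ z) else LK.BF (K i) a a θ₁ θ₂ z

lemma GG_cont (k : ℕ) (K R : ℕ → ℕ) (a : ℝ) (i₀ i : ℕ) :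
    Continuous fun x : ℝ × ℝ × ℂ => GG k K R a i₀ i x.1 x.2.1 x.2.2 := by
  unfold GG
  split_ifs
  · unfold BB LK.BF pf NC; fun_prop
  · unfold BE TD NC; fun_prop
  · unfold LK.BF pf NC; fun_prop

lemma GG_PB (hA : P_ALG) {n : ℕ} (hn : 1 ≤ n) {Rs : ℕ} (hRs : 1 ≤ Rs) {a : ℝ} (ha : |a| ≤ n) (k i₀ i : ℕ)
    {θ₁ θ₂ : ℝ} (h₁ : θ₁ ∈ Set.Icc (-1:ℝ) 1) (h₂ : θ₂ ∈ Set.Icc (-1:ℝ) 1) :
    PB (4 * KK n Rs i) (GG k (KK n Rs) (RR Rs) a i₀ i θ₁ θ₂) ∧ Sym (GG k (KK n Rs) (RR Rs) a i₀ i θ₁ θ₂) := by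
  obtain ⟨hA1, -, hA3, hA4⟩ := hA
  have hR : 2 ≤ RR Rs i := by unfold RR; omega
  have hK0 : n * RR Rs i * 20 = KK n Rs i := by unfold KK; ring
  have hK1 : RR Rs i ≤ n * RR Rs i := Nat.le_mul_of_pos_left _ hn
  have hK2 : n * 2 ≤ n * RR Rs i := Nat.mul_le_mul_left _ hR
  have hnK : n + 1 ≤ KK n Rs i := by omega
  obtain ⟨g1, g2, g3, g4, g5, g6⟩ := hA4 n (KK n Rs i) (RR Rs i) a a θ₁ θ₂ hn hnK (by omega) ha ha
    (abs_le.mpr ⟨h₁.1, h₁.2⟩) (abs_le.mpr ⟨h₂.1, h₂.2⟩)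
  unfold GG
  by_cases hi : i = i₀
  · by_cases hk : k = 0
    · simp only [hi, hk, if_true]
      rw [← hi]
      exact ⟨hA3 _ _ _ (by omega) g2, g5⟩
    · simp only [hi, hk, if_true, if_false]
      rw [← hi]
      exact ⟨hA3 _ _ _ (by omega) g3, g6⟩
  · simp only [hi, if_false]
    refine ⟨hA3 (3 * KK n Rs i) _ _ (by omega) (hA1 _ ((n:ℝ) + 1) _ (by positivity) ?_ g1), g4⟩
    have : ((n + 1 : ℕ) : ℝ) ≤ ((KK n Rs i : ℕ) : ℝ) := by exact_mod_cast hnK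
    push_cast at this ⊢
    linarith

/-! ### numerical bounds -/

lemma exp_RR_le {c y : ℝ} {J Rs : ℕ} {I : ℕ → Finset ℕ} (h : Rg c J I (bb y)) {i : ℕ} (hi : i < J) :
    Real.exp (RR Rs i : ℝ) ≤ Real.exp (2 * Rs) * Real.log y ^ 2 := by
  have h10 := h.b10 i hi
  unfold bb at h10
  have h2 : (1:ℝ) ≤ Real.log y * (1 / 4) ^ i := by
    by_contra hlt
    push Not at hlt
    have := Real.exp_lt_exp.mpr hlt
    have := Real.exp_one_lt_d9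
    linarith
  have h4 : (4:ℝ) ^ i ≤ Real.log y := by
    have e : (4:ℝ) ^ i * (1 / 4) ^ i = 1 := by rw [← mul_pow]; norm_num
    have h5 := mul_le_mul_of_nonneg_left h2 (by positivity : (0:ℝ) ≤ 4 ^ i)
    have h5' : (4:ℝ) ^ i * (Real.log y * (1 / 4) ^ i) = Real.log y := by rw [mul_left_comm, e, mul_one]
    rw [h5', mul_one] at h5
    exact h5
  have h6 : Real.exp 2 ≤ 16 := by
    have h7 : Real.exp 2 = Real.exp 1 ^ 2 := by rw [← Real.exp_nat_mul]; norm_num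
    rw [h7]
    nlinarith [Real.exp_one_lt_d9, Real.exp_pos 1]
  have h8 : Real.exp (RR Rs i : ℝ) = Real.exp (2 * Rs) * Real.exp 2 ^ i := by
    rw [← Real.exp_nat_mul, ← Real.exp_add]; congr 1; unfold RR; push_cast; ring
  rw [h8]
  have h9 : Real.exp 2 ^ i ≤ Real.log y ^ 2 := by
    calc Real.exp 2 ^ i ≤ 16 ^ i := pow_le_pow_left₀ (Real.exp_pos _).le h6 i
      _ = (4 ^ i) ^ 2 := by rw [← pow_mul, mul_comm i 2, pow_mul]; norm_num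
      _ ≤ _ := pow_le_pow_left₀ (by positivity) h4 2
  gcongr

lemma VV_nonneg (I : ℕ → Finset ℕ) (J : ℕ) : 0 ≤ VV I J := sum_nonneg fun i _ => vI_nonneg _

lemma err_ev (c : ℝ) (hc : 0 ≤ c) (Rs : ℕ) : ∀ᶠ T : ℝ in atTop, ∀ (y : ℝ) (J : ℕ) (I : ℕ → Finset ℕ) (e : ℝ) (P₀ : ℕ),
    Cfg c e P₀ y J I → Real.log y ≤ Real.log T → ∀ s : ℝ, 0 ≤ s →
      T ^ (-(1 / 2) : ℝ) ≤ WW s (VV I J) ∧ ∀ i < J, T ^ (-(1 / 2) : ℝ) ≤ Real.exp (-(RR Rs i : ℝ)) * WW s (VV I J) := by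
  have h1 : ∀ᶠ T : ℝ in atTop, Real.exp (2 * Rs) * (2 + c) * Real.log T ^ (3:ℝ) ≤ T ^ (1 / 2 : ℝ) := by
    have hD : 0 < Real.exp (2 * (Rs:ℝ)) * (2 + c) := by positivity
    have h := (isLittleO_log_rpow_rpow_atTop (3:ℝ) (by norm_num : (0:ℝ) < 1 / 2)).bound (inv_pos.mpr hD)
    filter_upwards [h, eventually_ge_atTop (3:ℝ)] with T hT hT3
    have hl : 0 ≤ Real.log T := Real.log_nonneg (by linarith)
    have hT0 : (0:ℝ) < T := by linarith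
    rw [Real.norm_of_nonneg (by positivity), Real.norm_of_nonneg (by positivity)] at hT
    calc Real.exp (2 * Rs) * (2 + c) * Real.log T ^ (3:ℝ) ≤
        Real.exp (2 * Rs) * (2 + c) * ((Real.exp (2 * Rs) * (2 + c))⁻¹ * T ^ (1 / 2 : ℝ)) := by gcongr
      _ = _ := by field_simp
  filter_upwards [h1, eventually_ge_atTop (3:ℝ)] with T hT hT3
  intro y J I e P₀ hC hy s hs
  have hT0 : (0:ℝ) < T := by linarith
  have hlT : 1 ≤ Real.log T := (Real.le_log_iff_exp_le hT0).mpr (by linarith [Real.exp_one_lt_d9])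
  have hy0 : (0:ℝ) < y := by linarith [hC.y1]
  have hly : 1 ≤ Real.log y := (Real.le_log_iff_exp_le hy0).mpr (by linarith [Real.exp_one_lt_d9, hC.y1])
  have hV0 := VV_nonneg I J
  set V := VV I J with hVd
  have hV : 1 + V ≤ (2 + c) * Real.log T := by
    have e1 := hC.vv
    have e2 := Real.log_le_sub_one_of_pos (x := Real.log y) (by linarith)
    nlinarith
  have hW : 1 / ((2 + c) * Real.log T) ≤ WW s V := by
    unfold WW
    have e1 : 1 / (1 + V) ≤ (1 + V) ^ (-(1 / 2) : ℝ) := by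
      rw [one_div, ← Real.rpow_neg_one]
      exact Real.rpow_le_rpow_of_exponent_le (by linarith) (by norm_num)
    have e2 : 1 ≤ Real.exp (s * V) := Real.one_le_exp (by positivity)
    calc 1 / ((2 + c) * Real.log T) ≤ 1 / (1 + V) := one_div_le_one_div_of_le (by linarith) hV
      _ ≤ (1 + V) ^ (-(1 / 2) : ℝ) * 1 := by rw [mul_one]; exact e1
      _ ≤ _ := by gcongr
  have e3 : Real.log T ^ (3:ℝ) = Real.log T ^ 3 := by
    rw [show (3:ℝ) = ((3:ℕ):ℝ) by norm_num, Real.rpow_natCast]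
  rw [e3] at hT
  have hE : (1:ℝ) ≤ Real.exp (2 * Rs) := Real.one_le_exp (by positivity)
  have hT2 : T ^ (-(1 / 2) : ℝ) ≤ 1 / (Real.exp (2 * Rs) * (2 + c) * Real.log T ^ 3) := by
    rw [Real.rpow_neg hT0.le, ← one_div]
    exact one_div_le_one_div_of_le (by positivity) hT
  refine ⟨hT2.trans (le_trans ?_ hW), fun i hi => ?_⟩
  · refine one_div_le_one_div_of_le (by positivity) ?_
    have e4 : Real.log T ≤ Real.log T ^ 3 := by nlinarith [sq_nonneg (Real.log T), mul_self_nonneg (Real.log T - 1)]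
    calc (2 + c) * Real.log T = 1 * (2 + c) * Real.log T := by ring
      _ ≤ _ := by gcongr
  · have h5 := exp_RR_le (Rs := Rs) hC.rg hi
    have h6 : Real.exp (RR Rs i : ℝ) ≤ Real.exp (2 * Rs) * Real.log T ^ 2 := h5.trans (by gcongr)
    have h7 : 1 / (Real.exp (2 * Rs) * Real.log T ^ 2) ≤ Real.exp (-(RR Rs i : ℝ)) := by
      rw [Real.exp_neg, ← one_div]
      exact one_div_le_one_div_of_le (Real.exp_pos _) h6
    calc T ^ (-(1 / 2) : ℝ) ≤ 1 / (Real.exp (2 * Rs) * (2 + c) * Real.log T ^ 3) := hT2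
      _ = 1 / (Real.exp (2 * Rs) * Real.log T ^ 2) * (1 / ((2 + c) * Real.log T)) := by
        field_simp
      _ ≤ _ := mul_le_mul h7 hW (by positivity) (Real.exp_pos _).le

lemma len_le {n Rs : ℕ} {y T : ℝ} (hy : 1 ≤ y) (J : ℕ)
    (h : n * ((Rs:ℝ) + 1) * Real.log y ≤ 1 / 32000 * Real.log T) :
    ∑ i ∈ range J, ((4 * KK n Rs i : ℕ) : ℝ) * Real.log (bb y i) ≤ 1 / 100 * Real.log T := by
  have h1 : ∀ i ∈ range J, ((4 * KK n Rs i : ℕ) : ℝ) * Real.log (bb y i) =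
      160 * n * Real.log y * (((Rs:ℝ) + i) * (1 / 4) ^ i) := by
    intro i _
    rw [log_bb]; unfold KK RR; push_cast; ring
  rw [sum_congr rfl h1, ← mul_sum]
  have h2 := geo_sum Rs J
  have h3 := Real.log_nonneg hy
  calc 160 * n * Real.log y * ∑ i ∈ range J, ((Rs:ℝ) + i) * (1 / 4) ^ i ≤ 160 * n * Real.log y * (2 * ((Rs:ℝ) + 1)) :=
        mul_le_mul_of_nonneg_left h2 (by positivity)
    _ = 320 * (n * ((Rs:ℝ) + 1) * Real.log y) := by ring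
    _ ≤ 320 * (1 / 32000 * Real.log T) := by linarith
    _ = _ := by ring

/-! ### the bound -/

/-- the double Fourier integral -/
def DI (J : ℕ) (h : ℝ → ℝ) (u : ℝ) (G : ℕ → ℝ → ℝ → ℂ → ℂ) (z : ℕ → ℂ) : ℂ :=
  ∫ θ₁ in (-1:ℝ)..1, ∫ θ₂ in (-1:ℝ)..1,
    ((h θ₁ * h θ₂ : ℝ) : ℂ) * (Complex.exp (-(((θ₁ + θ₂) * u : ℝ) : ℂ) * I) * ∏ i ∈ range J, G i θ₁ θ₂ (z i))

theorem core (hA : P_ALG) (hL : P_LAW) (hP : P_PRD) (hG : P_UPG) (n : ℕ) (c : ℝ) (hn : 1 ≤ n) (hc : 0 ≤ c) :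
    ∃ (P₀ : ℕ) (C : ℝ), 0 < C ∧ ∀ Rs : ℕ, 1 ≤ Rs → ∀ᶠ T : ℝ in atTop, 0 < T ∧ ∀ κ : ℕ, Rng T κ →
      0 < (κ:ℝ) / T ∧
      ∀ (y : ℝ) (J : ℕ) (I : ℕ → Finset ℕ), Cfg c 1 P₀ y J I →
        n * ((Rs:ℝ) + 1) * Real.log y ≤ 1 / 32000 * Real.log T → ∀ a u : ℝ, |a| ≤ n →
        ∀ h : ℝ → ℝ, Continuous h → (∀ θ ∈ Set.Icc (-1:ℝ) 1, |h θ| ≤ 1) → ∀ k : ℕ,
          ‖∫ t in Set.Ioi (0:ℝ), ((om κ (κ / T) t : ℝ) : ℂ) *
            DI J h u (GG k (KK n Rs) (RR Rs) a J) (zz I t)‖ ≤ C * WW (a ^ 2) (VV I J) ∧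
          ∀ i₀ < J, ‖∫ t in Set.Ioi (0:ℝ), ((om κ (κ / T) t : ℝ) : ℂ) *
            DI J h u (GG k (KK n Rs) (RR Rs) a i₀) (zz I t)‖ ≤
              C * Real.exp (-(RR Rs i₀ : ℝ)) * WW (a ^ 2) (VV I J) := by
  have hQ : (1:ℝ) ≤ 8 * n + 8 := by
    have : (0:ℝ) ≤ n := Nat.cast_nonneg n
    linarith
  obtain ⟨P₀, C, hP₀, hC1, hL⟩ := hL (8 * n + 8) hQ
  obtain ⟨C₃, hC₃, e₀, he₀, R₀, hP⟩ := hP n c C hn hc
  obtain ⟨C₀, hC₀, hG⟩ := hG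
  refine ⟨P₀, C₀ * C₃ + 4, by positivity, fun Rs hRs => ?_⟩
  filter_upwards [hG, err_ev c hc Rs, eventually_gt_atTop (1:ℝ)] with T hG herr hT
  refine ⟨by linarith, fun κ hκ => ?_⟩
  have hT0 : 0 < T := by linarith
  have hlog : 0 < Real.log T := Real.log_pos hT
  have hκ0 : (0:ℝ) < κ := lt_of_lt_of_le (by positivity) hκ.1
  refine ⟨by positivity, fun y J I hC hlen a u ha h hhc hh1 k => ?_⟩
  have hν : ∀ i, ∃ ν, LW w0 0 0 (8 * n + 8) C (I i) ν := fun i =>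
    (hL (I i) fun p hp => ⟨(hC.rg.pr i p hp).1, hC.P i p hp⟩).1
  choose ν hν using hν
  have hy1 : 1 ≤ y := by linarith [hC.y1]
  have hly0 : 0 ≤ Real.log y := Real.log_nonneg hy1
  have hn1 : (1:ℝ) ≤ n := by exact_mod_cast hn
  have hRs0 : (0:ℝ) ≤ Rs := Nat.cast_nonneg _
  have hly : Real.log y ≤ Real.log T := by
    have e1 : 1 * Real.log y ≤ n * ((Rs:ℝ) + 1) * Real.log y := by
      refine mul_le_mul_of_nonneg_right ?_ hly0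
      nlinarith
    linarith
  obtain ⟨herr1, herr2⟩ := herr y J I 1 P₀ hC hly (a ^ 2) (sq_nonneg a)
  have main : ∀ (i₀ : ℕ) (M : ℝ), 0 ≤ M → (∀ θ₁ ∈ Set.Icc (-1:ℝ) 1, ∀ θ₂ ∈ Set.Icc (-1:ℝ) 1,
      ∏ i ∈ range J, ‖∫ q, q.2 * GG k (KK n Rs) (RR Rs) a i₀ i θ₁ θ₂ q.1 ∂(ν i)‖ ≤
        M * Real.exp ((a ^ 2 - (θ₁ + θ₂) ^ 2 / 4) * VV I J)) →
      ‖∫ t in Set.Ioi (0:ℝ), ((om κ (κ / T) t : ℝ) : ℂ) *
            DI J h u (GG k (KK n Rs) (RR Rs) a i₀) (zz I t)‖ ≤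
        C₀ * M * WW (a ^ 2) (VV I J) + 4 * T ^ (-(1 / 2) : ℝ) := by
    intro i₀ M hM hprod
    refine hG κ hκ c (8 * n + 8) C J I (bb y) (fun i => 4 * KK n Rs i)
      (fun i => GG k (KK n Rs) (RR Rs) a i₀ i) ν h h u (a ^ 2) M hC.rg (fun i _ => hν i) (fun i _ => ?_)
      (fun i _ θ₁ h₁ θ₂ h₂ => GG_PB hA hn hRs ha k i₀ i h₁ h₂) (fun i _ => GG_cont _ _ _ _ _ _) hhc hhc
      (fun θ hθ => ⟨hh1 θ hθ, hh1 θ hθ⟩) hM (len_le hy1 J hlen) hprod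
    have : 1 * 1 ≤ n * RR Rs i := Nat.mul_le_mul hn (by unfold RR; omega)
    unfold KK
    nlinarith
  have hP1 : ∀ θ₁ ∈ Set.Icc (-1:ℝ) 1, ∀ θ₂ ∈ Set.Icc (-1:ℝ) 1, _ := fun θ₁ h₁ θ₂ h₂ =>
    (hP J Rs I (bb y) ν hC.rg hRs).1 w0 0 le_rfl zero_le_one (fun i _ => hν i) a θ₁ θ₂ ha
      (abs_le.mpr ⟨h₁.1, h₁.2⟩) (abs_le.mpr ⟨h₂.1, h₂.2⟩)
  simp only [mul_zero, zero_mul, zero_add] at hP1
  constructor
  · refine (main J C₃ hC₃.le ?_).trans ?_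
    · intro θ₁ h₁ θ₂ h₂
      refine le_trans (le_of_eq ?_) (hP1 θ₁ h₁ θ₂ h₂).1
      refine prod_congr rfl fun i hi => ?_
      have hne : i ≠ J := (mem_range.mp hi).ne
      simp only [GG, hne, if_false]
    · have hC₃0 := hC₃.le
      nlinarith
  · intro i₀ hi₀
    have hW0 : 0 ≤ WW (a ^ 2) (VV I J) := by
      unfold WW
      have := VV_nonneg I J
      positivity
    refine (main i₀ (C₃ * Real.exp (-(RR Rs i₀ : ℝ))) (by positivity) ?_).trans ?_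
    · intro θ₁ h₁ θ₂ h₂
      obtain ⟨-, h4⟩ := hP1 θ₁ h₁ θ₂ h₂
      obtain ⟨-, h5, h6⟩ := h4 i₀ hi₀
      have e1 : ∏ i ∈ (range J).erase i₀, ‖∫ q, q.2 * GG k (KK n Rs) (RR Rs) a i₀ i θ₁ θ₂ q.1 ∂(ν i)‖ =
          ∏ i ∈ (range J).erase i₀, ‖∫ q, q.2 * LK.BF (KK n Rs i) a a θ₁ θ₂ q.1 ∂(ν i)‖ := by
        refine prod_congr rfl fun i hi => ?_
        simp only [GG, (mem_erase.mp hi).1, if_false]
      rw [← mul_prod_erase (range J) _ (mem_range.mpr hi₀), e1]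
      by_cases hk : k = 0
      · simp only [GG, hk, if_true]
        refine h5.trans (le_of_eq ?_)
        ring
      · simp only [GG, hk, if_true, if_false]
        refine h6.trans (le_of_eq ?_)
        ring
    · have := herr2 i₀ hi₀
      nlinarith

/-- from the double integral to the real integral -/
lemma real_bound {κ : ℕ} {δ : ℝ} {F : ℝ → ℝ} {σ : ℝ} (hσ : |σ| = 1) {W : ℝ → ℂ}
    (hF : ∀ t, ((F t : ℝ) : ℂ) = σ * W t) {B : ℝ}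
    (hB : ‖∫ t in Set.Ioi (0:ℝ), ((om κ δ t : ℝ) : ℂ) * W t‖ ≤ B) :
    ∫ t in Set.Ioi (0:ℝ), om κ δ t * F t ≤ B := by
  have h1 : ((∫ t in Set.Ioi (0:ℝ), om κ δ t * F t : ℝ) : ℂ) =
      σ * ∫ t in Set.Ioi (0:ℝ), ((om κ δ t : ℝ) : ℂ) * W t := by
    rw [← integral_const_mul, ← integral_complex_ofReal]
    refine integral_congr_ae (ae_of_all _ fun t => ?_)
    simp only [Complex.ofReal_mul, hF]
    ring
  have h2 : ‖((∫ t in Set.Ioi (0:ℝ), om κ δ t * F t : ℝ) : ℂ)‖ ≤ B := by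
    rw [h1, norm_mul, Complex.norm_real, Real.norm_eq_abs, hσ, one_mul]
    exact hB
  rw [Complex.norm_real, Real.norm_eq_abs] at h2
  exact (le_abs_self _).trans h2

end

end Pool.Agent.TH112.LKC
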