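import Pool.Agent.TH112.LK_Core

set_option autoImplicit false

/-! Job LK U13 (helper806): the first and the third upper bound. -/

namespace Pool.Agent.TH112.LK_U13

open Finset Filter Topology MeasureTheory Complex
open Pool.Agent.W184.NZ
open Pool.Agent.TH806
open Pool.Agent.TH806.LK
open Pool.Agent.TH112.LKC
open Pool.Agent.H306R2.SM (om cl Yf)
open Pool.Agent.H262R4.TM (Rng Ck)

noncomputable section

lemma hh_cont : Continuous hh := by unfold hh; fun_prop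

lemma hh_le : ∀ θ ∈ Set.Icc (-1:ℝ) 1, |hh θ| ≤ 1 := by
  intro θ hθ
  unfold hh
  have : θ ^ 2 ≤ 1 := by nlinarith [hθ.1, hθ.2]
  rw [abs_le]
  constructor <;> nlinarith [sq_nonneg θ]

lemma hh_even (θ : ℝ) : hh (-θ) = 1 * hh θ := by unfold hh; ring

lemma AD_id (n Rs J : ℕ) (a u : ℝ) (z : ℕ → ℂ) :
    ((‖AZ n Rs J a z‖ ^ 2 * ‖DK n Rs J hh u z‖ ^ 2 : ℝ) : ℂ) =
      (1:ℝ) * DI J hh u (GG 0 (KK n Rs) (RR Rs) a J) z := by
  have h := sq_id J (KK n Rs) a u hh 1 hh_even (fun i => pf (KK n Rs i)) (fun i θ z => pf_conj _ _ _) z 1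
  rw [mul_one] at h
  refine h.trans ?_
  congr 1
  unfold DI
  refine intervalIntegral.integral_congr fun θ₁ _ => ?_
  refine intervalIntegral.integral_congr fun θ₂ _ => ?_
  simp only [mul_one]
  congr 2
  refine prod_congr rfl fun i hi => ?_
  have hne : i ≠ J := (mem_range.mp hi).ne
  simp only [GG, hne, if_false, LK.BF]

lemma AD_id3 (n Rs J : ℕ) (a u : ℝ) (z : ℕ → ℂ) {i₀ : ℕ} (hi₀ : i₀ < J) :
    (((‖z i₀‖ / RR Rs i₀) ^ (2 * RR Rs i₀) * (‖AZ n Rs J a z‖ ^ 2 * ‖DK n Rs J hh u z‖ ^ 2) : ℝ) : ℂ) =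
      (1:ℝ) * DI J hh u (GG 0 (KK n Rs) (RR Rs) a i₀) z := by
  have h := sq_id J (KK n Rs) a u hh 1 hh_even (fun i => pf (KK n Rs i)) (fun i θ z => pf_conj _ _ _) z
    (((‖z i₀‖ / RR Rs i₀) ^ (2 * RR Rs i₀) : ℝ) : ℂ)
  rw [Complex.ofReal_mul, mul_comm]
  refine h.trans ?_
  congr 1
  unfold DI
  refine intervalIntegral.integral_congr fun θ₁ _ => ?_
  refine intervalIntegral.integral_congr fun θ₂ _ => ?_
  congr 2
  rw [← mul_prod_erase (range J) _ (mem_range.mpr hi₀),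
    ← mul_prod_erase (range J) (fun i => GG 0 (KK n Rs) (RR Rs) a i₀ i θ₁ θ₂ (z i)) (mem_range.mpr hi₀)]
  have e1 : ∏ i ∈ (range J).erase i₀, GG 0 (KK n Rs) (RR Rs) a i₀ i θ₁ θ₂ (z i) =
      ∏ i ∈ (range J).erase i₀, (NC (KK n Rs i) a (z i) * NC (KK n Rs i) a (starRingEnd ℂ (z i)) *
        (pf (KK n Rs i) θ₁ (z i) * pf (KK n Rs i) θ₂ (z i))) := by
    refine prod_congr rfl fun i hi => ?_
    simp only [GG, (mem_erase.mp hi).1, if_false, LK.BF]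
  rw [e1]
  simp only [GG, if_true, BB, LK.BF]
  ring

theorem t_U1 (hA : P_ALG) (hL : P_LAW) (hP : P_PRD) (hG : P_UPG) : P_U1 := by
  intro n c hn hc
  obtain ⟨P₀, C, hC, h⟩ := core hA hL hP hG n c hn hc
  refine ⟨P₀, C, 1 / 32000, hC, by norm_num, fun Rs hRs => ?_⟩
  filter_upwards [h Rs hRs] with T hT κ hκ y J I hCfg hlen a u ha
  obtain ⟨hT0, hT⟩ := hT
  have h1 := (((hT κ hκ).2 y J I hCfg hlen a u ha hh hh_cont hh_le 0).1)
  exact real_bound (σ := 1) (by simp) (fun t => AD_id n Rs J a u (zz I t)) h1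

theorem t_U3 (hA : P_ALG) (hL : P_LAW) (hP : P_PRD) (hG : P_UPG) : P_U3 := by
  intro n c hn hc
  obtain ⟨P₀, C, hC, h⟩ := core hA hL hP hG n c hn hc
  refine ⟨P₀, C, 1 / 32000, hC, by norm_num, fun Rs hRs => ?_⟩
  filter_upwards [h Rs hRs] with T hT κ hκ y J I hCfg hlen a u ha i hi
  obtain ⟨hT0, hT⟩ := hT
  have h1 := (((hT κ hκ).2 y J I hCfg hlen a u ha hh hh_cont hh_le 0).2 i hi)
  exact real_bound (σ := 1) (by simp) (fun t => AD_id3 n Rs J a u (zz I t) hi) h1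

theorem t_U13 (hA : P_ALG) (hL : P_LAW) (hP : P_PRD) (hG : P_UPG) : P_U1 ∧ P_U3 :=
  ⟨t_U1 hA hL hP hG, t_U3 hA hL hP hG⟩

end

end Pool.Agent.TH112.LK_U13
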