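import Pool.Agent.TH112.LK_U13

set_option autoImplicit false

/-! Job LK U2 (helper806): the second upper bound (localisation). -/

namespace Pool.Agent.TH112.LK_U2

open Finset Filter Topology MeasureTheory Complex
open Pool.Agent.W184.NZ
open Pool.Agent.TH806
open Pool.Agent.TH806.LK
open Pool.Agent.TH112.LKC
open Pool.Agent.TH112.LK_U13
open Pool.Agent.H306R2.SM (om cl Yf)
open Pool.Agent.H262R4.TM (Rng Ck)

noncomputable section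

/-- the Fourier integral with the kernel `θ` -/
def F0 (n Rs J : ℕ) (u : ℝ) (z : ℕ → ℂ) : ℂ :=
  FI (fun θ => θ) u (fun θ => ∏ i ∈ range J, pf (KK n Rs i) θ (z i))

/-- the Fourier integral with a defect -/
def F1 (n Rs J : ℕ) (u : ℝ) (i₀ : ℕ) (z : ℕ → ℂ) : ℂ :=
  FI hh u (fun θ => ∏ i ∈ range J, QQ (KK n Rs) i₀ i θ (z i))

lemma id_0 (n Rs J : ℕ) (a u : ℝ) (z : ℕ → ℂ) :
    ((‖AZ n Rs J a z‖ ^ 2 * ‖F0 n Rs J u z‖ ^ 2 : ℝ) : ℂ) =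
      (-1:ℝ) * DI J (fun θ => θ) u (GG 1 (KK n Rs) (RR Rs) a J) z := by
  have h := sq_id J (KK n Rs) a u (fun θ => θ) (-1) (fun θ => by ring) (fun i => pf (KK n Rs i))
    (fun i θ z => pf_conj _ _ _) z 1
  rw [mul_one] at h
  refine h.trans ?_
  congr 1
  unfold DI
  refine intervalIntegral.integral_congr fun θ₁ _ => ?_
  refine intervalIntegral.integral_congr fun θ₂ _ => ?_
  simp only [mul_one]
  congr 2
  refine prod_congr rfl fun i hi => ?_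
  have hne : i ≠ J := (mem_range.mp hi).ne
  simp only [GG, hne, if_false, LK.BF]

lemma id_1 (n Rs J : ℕ) (a u : ℝ) (z : ℕ → ℂ) (i₀ : ℕ) :
    ((‖AZ n Rs J a z‖ ^ 2 * ‖F1 n Rs J u i₀ z‖ ^ 2 : ℝ) : ℂ) =
      (1:ℝ) * DI J hh u (GG 1 (KK n Rs) (RR Rs) a i₀) z := by
  have h := sq_id J (KK n Rs) a u hh 1 hh_even (fun i => QQ (KK n Rs) i₀ i)
    (fun i θ z => QQ_conj _ _ _ _ _) z 1
  rw [mul_one] at h
  refine h.trans ?_
  congr 1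
  unfold DI
  refine intervalIntegral.integral_congr fun θ₁ _ => ?_
  refine intervalIntegral.integral_congr fun θ₂ _ => ?_
  simp only [mul_one]
  congr 2
  refine prod_congr rfl fun i hi => ?_
  by_cases hi : i = i₀
  · simp only [GG, QQ, hi, if_true, BE]
    simp
  · simp only [GG, QQ, hi, if_false, LK.BF]

lemma pointwise (n Rs J : ℕ) (a u : ℝ) (hRs : 1 ≤ Rs) (z : ℕ → ℂ) :
    ((∑ i ∈ range J, (z i).re) - u) ^ 2 * (‖AZ n Rs J a z‖ ^ 2 * ‖DK n Rs J hh u z‖ ^ 2) ≤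
      8 * (‖AZ n Rs J a z‖ ^ 2 * ‖F0 n Rs J u z‖ ^ 2) +
        ∑ i₀ ∈ range J, 4 * Real.exp ((Rs:ℝ) + i₀) * (‖AZ n Rs J a z‖ ^ 2 * ‖F1 n Rs J u i₀ z‖ ^ 2) := by
  set x : ℝ := (∑ i ∈ range J, (z i).re) - u with hx
  have h1 := by_parts J (KK n Rs) u z
  rw [← hx, ← DK_eq] at h1
  change (x:ℂ) * DK n Rs J hh u z = -2 * Complex.I * F0 n Rs J u z + ∑ i₀ ∈ range J, F1 n Rs J u i₀ z at h1
  have h2 : |x| * ‖DK n Rs J hh u z‖ ≤ 2 * ‖F0 n Rs J u z‖ + ∑ i₀ ∈ range J, ‖F1 n Rs J u i₀ z‖ := by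
    have : |x| * ‖DK n Rs J hh u z‖ = ‖(x:ℂ) * DK n Rs J hh u z‖ := by
      rw [norm_mul, Complex.norm_real, Real.norm_eq_abs]
    rw [this, h1]
    refine (norm_add_le _ _).trans (add_le_add ?_ (norm_sum_le _ _))
    rw [norm_mul]
    simp
  have h3 : (∑ i₀ ∈ range J, ‖F1 n Rs J u i₀ z‖) ^ 2 ≤
      2 * ∑ i₀ ∈ range J, Real.exp ((Rs:ℝ) + i₀) * ‖F1 n Rs J u i₀ z‖ ^ 2 := by
    have e1 : ∀ i₀ ∈ range J, ‖F1 n Rs J u i₀ z‖ =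
        Real.exp (-((Rs:ℝ) + i₀) / 2) * (Real.exp (((Rs:ℝ) + i₀) / 2) * ‖F1 n Rs J u i₀ z‖) := by
      intro i₀ _
      rw [← mul_assoc, ← Real.exp_add]
      rw [show -((Rs:ℝ) + i₀) / 2 + ((Rs:ℝ) + i₀) / 2 = 0 by ring, Real.exp_zero, one_mul]
    rw [sum_congr rfl e1]
    refine (sum_mul_sq_le_sq_mul_sq _ _ _).trans ?_
    have e2 : ∑ i₀ ∈ range J, Real.exp (-((Rs:ℝ) + i₀) / 2) ^ 2 ≤ 2 := by
      have e3 : ∀ i₀ ∈ range J, Real.exp (-((Rs:ℝ) + i₀) / 2) ^ 2 = Real.exp (-((Rs + i₀ : ℕ) : ℝ)) := by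
        intro i₀ _
        rw [← Real.exp_nat_mul]; congr 1; push_cast; ring
      rw [sum_congr rfl e3]
      refine (sum_exp_le J Rs (R := fun i => Rs + i) (fun i => le_rfl)).trans ?_
      have : Real.exp (-(Rs:ℝ)) ≤ 1 := Real.exp_le_one_iff.mpr (by simp)
      linarith
    have e4 : ∀ i₀ ∈ range J, (Real.exp (((Rs:ℝ) + i₀) / 2) * ‖F1 n Rs J u i₀ z‖) ^ 2 =
        Real.exp ((Rs:ℝ) + i₀) * ‖F1 n Rs J u i₀ z‖ ^ 2 := by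
      intro i₀ _
      rw [mul_pow, ← Real.exp_nat_mul]; congr 2; push_cast; ring
    rw [sum_congr rfl e4]
    refine mul_le_mul_of_nonneg_right e2 (sum_nonneg fun _ _ => by positivity)
  have h4 : x ^ 2 * ‖DK n Rs J hh u z‖ ^ 2 ≤ 8 * ‖F0 n Rs J u z‖ ^ 2 +
      ∑ i₀ ∈ range J, 4 * Real.exp ((Rs:ℝ) + i₀) * ‖F1 n Rs J u i₀ z‖ ^ 2 := by
    have e5 : x ^ 2 * ‖DK n Rs J hh u z‖ ^ 2 = (|x| * ‖DK n Rs J hh u z‖) ^ 2 := by rw [mul_pow, sq_abs]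
    have e6 : ∑ i₀ ∈ range J, 4 * Real.exp ((Rs:ℝ) + i₀) * ‖F1 n Rs J u i₀ z‖ ^ 2 =
        4 * ∑ i₀ ∈ range J, Real.exp ((Rs:ℝ) + i₀) * ‖F1 n Rs J u i₀ z‖ ^ 2 := by
      rw [mul_sum]; exact sum_congr rfl fun i _ => by ring
    rw [e5, e6]
    have e7 : (|x| * ‖DK n Rs J hh u z‖) ^ 2 ≤
        (2 * ‖F0 n Rs J u z‖ + ∑ i₀ ∈ range J, ‖F1 n Rs J u i₀ z‖) ^ 2 :=
      pow_le_pow_left₀ (by positivity) h2 2
    nlinarith [sq_nonneg (2 * ‖F0 n Rs J u z‖ - ∑ i₀ ∈ range J, ‖F1 n Rs J u i₀ z‖)]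
  have h5 : 0 ≤ ‖AZ n Rs J a z‖ ^ 2 := by positivity
  have h6 := mul_le_mul_of_nonneg_left h4 h5
  calc x ^ 2 * (‖AZ n Rs J a z‖ ^ 2 * ‖DK n Rs J hh u z‖ ^ 2) =
        ‖AZ n Rs J a z‖ ^ 2 * (x ^ 2 * ‖DK n Rs J hh u z‖ ^ 2) := by ring
    _ ≤ _ := h6
    _ = _ := by
      rw [mul_add, mul_sum]
      congr 1
      · ring
      · exact sum_congr rfl fun i _ => by ring

theorem t_U2 (hA : P_ALG) (hL : P_LAW) (hP : P_PRD) (hG : P_UPG) : P_U2 := by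
  intro n c hn hc
  obtain ⟨P₀, C, hC, h⟩ := core hA hL hP hG n c hn hc
  refine ⟨P₀, 16 * C, 1 / 32000, by positivity, by norm_num, fun Rs hRs => ?_⟩
  filter_upwards [h Rs hRs] with T hT κ hκ y J I hCfg hlen a u ha
  obtain ⟨hT0, hT⟩ := hT
  obtain ⟨hδ, hT⟩ := hT κ hκ
  have hI : ∀ i, ∀ p ∈ I i, p.Prime := fun i p hp => (hCfg.rg.pr i p hp).1
  have h0 : ∫ t in Set.Ioi (0:ℝ), om κ (κ / T) t * (‖AZ n Rs J a (zz I t)‖ ^ 2 * ‖F0 n Rs J u (zz I t)‖ ^ 2) ≤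
      C * WW (a ^ 2) (VV I J) :=
    real_bound (σ := -1) (by simp) (fun t => id_0 n Rs J a u (zz I t))
      ((hT y J I hCfg hlen a u ha (fun θ => θ) continuous_id (fun θ hθ => abs_le.mpr ⟨hθ.1, hθ.2⟩) 1).1)
  have h1 : ∀ i₀ ∈ range J, ∫ t in Set.Ioi (0:ℝ), om κ (κ / T) t *
      (‖AZ n Rs J a (zz I t)‖ ^ 2 * ‖F1 n Rs J u i₀ (zz I t)‖ ^ 2) ≤
      C * Real.exp (-(RR Rs i₀ : ℝ)) * WW (a ^ 2) (VV I J) := fun i₀ hi₀ =>
    real_bound (σ := 1) (by simp) (fun t => id_1 n Rs J a u (zz I t) i₀)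
      ((hT y J I hCfg hlen a u ha hh hh_cont hh_le 1).2 i₀ (mem_range.mp hi₀))
  have c0 : Continuous fun z : ℕ → ℂ => ‖AZ n Rs J a z‖ ^ 2 * ‖F0 n Rs J u z‖ ^ 2 := by
    have c1 := AZ_cont n Rs J a
    have c2 : Continuous fun z : ℕ → ℂ => F0 n Rs J u z := FI_cont continuous_id u (fun i => pf_cont (KK n Rs i)) J
    fun_prop
  have c1 : ∀ i₀, Continuous fun z : ℕ → ℂ => ‖AZ n Rs J a z‖ ^ 2 * ‖F1 n Rs J u i₀ z‖ ^ 2 := by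
    intro i₀
    have c1 := AZ_cont n Rs J a
    have c2 : Continuous fun z : ℕ → ℂ => F1 n Rs J u i₀ z :=
      FI_cont hh_cont u (fun i => QQ_cont (KK n Rs) i₀ i) J
    fun_prop
  have c2 : Continuous fun z : ℕ → ℂ => ((∑ i ∈ range J, (z i).re) - u) ^ 2 *
      (‖AZ n Rs J a z‖ ^ 2 * ‖DK n Rs J hh u z‖ ^ 2) := by
    have c1 := AZ_cont n Rs J a
    have c2 : Continuous fun z : ℕ → ℂ => DK n Rs J hh u z := FI_cont hh_cont u (fun i => pf_cont (KK n Rs i)) J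
    fun_prop
  have i0 := om_F_int c0 hI κ hδ
  have i1 := fun i₀ => om_F_int (c1 i₀) hI κ hδ
  have i2 := om_F_int c2 hI κ hδ
  have i3 : IntegrableOn (fun t => 8 * (om κ (κ / T) t * (‖AZ n Rs J a (zz I t)‖ ^ 2 * ‖F0 n Rs J u (zz I t)‖ ^ 2)) +
      ∑ i₀ ∈ range J, 4 * Real.exp ((Rs:ℝ) + i₀) * (om κ (κ / T) t *
        (‖AZ n Rs J a (zz I t)‖ ^ 2 * ‖F1 n Rs J u i₀ (zz I t)‖ ^ 2))) (Set.Ioi 0) :=
    (i0.const_mul 8).add (integrable_finset_sum _ fun i₀ _ => (i1 i₀).const_mul _)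
  have hmono : ∫ t in Set.Ioi (0:ℝ), om κ (κ / T) t * ((xx I J t - u) ^ 2 * AD n Rs J I a u t) ≤
      ∫ t in Set.Ioi (0:ℝ), (8 * (om κ (κ / T) t * (‖AZ n Rs J a (zz I t)‖ ^ 2 * ‖F0 n Rs J u (zz I t)‖ ^ 2)) +
      ∑ i₀ ∈ range J, 4 * Real.exp ((Rs:ℝ) + i₀) * (om κ (κ / T) t *
        (‖AZ n Rs J a (zz I t)‖ ^ 2 * ‖F1 n Rs J u i₀ (zz I t)‖ ^ 2))) := by
    refine setIntegral_mono_on i2 i3 measurableSet_Ioi fun t ht => ?_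
    have hom : 0 ≤ om κ (κ / T) t := om_nn κ hδ (le_of_lt ht)
    have hp := mul_le_mul_of_nonneg_left (pointwise n Rs J a u hRs (zz I t)) hom
    refine hp.trans (le_of_eq ?_)
    rw [mul_add, mul_sum]
    congr 1
    · ring
    · exact sum_congr rfl fun i _ => by ring
  refine hmono.trans ?_
  rw [integral_add (i0.const_mul 8) (integrable_finset_sum _ fun i₀ _ => (i1 i₀).const_mul _),
    integral_const_mul, integral_finset_sum _ (fun i₀ _ => (i1 i₀).const_mul _)]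
  have hW0 : 0 ≤ WW (a ^ 2) (VV I J) := by
    unfold WW
    have := VV_nonneg I J
    positivity
  have h2 : ∑ i₀ ∈ range J, ∫ t in Set.Ioi (0:ℝ), 4 * Real.exp ((Rs:ℝ) + i₀) * (om κ (κ / T) t *
        (‖AZ n Rs J a (zz I t)‖ ^ 2 * ‖F1 n Rs J u i₀ (zz I t)‖ ^ 2)) ≤
      ∑ i₀ ∈ range J, 4 * C * WW (a ^ 2) (VV I J) * Real.exp (-((Rs + i₀ : ℕ) : ℝ)) := by
    refine sum_le_sum fun i₀ hi₀ => ?_
    rw [integral_const_mul]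
    refine (mul_le_mul_of_nonneg_left (h1 i₀ hi₀) (by positivity)).trans (le_of_eq ?_)
    have e1 : Real.exp ((Rs:ℝ) + i₀) * Real.exp (-(RR Rs i₀ : ℝ)) = Real.exp (-((Rs + i₀ : ℕ) : ℝ)) := by
      rw [← Real.exp_add]; congr 1; unfold RR; push_cast; ring
    rw [← e1]
    ring
  rw [← mul_sum] at h2
  have h3 := sum_exp_le J Rs (R := fun i => Rs + i) (fun i => le_rfl)
  have h4 : Real.exp (-(Rs:ℝ)) ≤ 1 := Real.exp_le_one_iff.mpr (by simp)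
  have h5 : ∑ i₀ ∈ range J, Real.exp (-((Rs + i₀ : ℕ) : ℝ)) ≤ 2 := by linarith
  have h6 : 4 * C * WW (a ^ 2) (VV I J) * ∑ i₀ ∈ range J, Real.exp (-((Rs + i₀ : ℕ) : ℝ)) ≤
      4 * C * WW (a ^ 2) (VV I J) * 2 := mul_le_mul_of_nonneg_left h5 (by positivity)
  nlinarith

end

end Pool.Agent.TH112.LK_U2
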